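import Pool.Agent.H70.WE.FGHopf

/-!
# [H70 WE FGInj] Two elements of a free group which do not commute generate a free group freely

Proof. `H = closure {a, b}` is a free group (Nielsen-Schreier in Mathlib: `subgroupIsFreeOfIsFree`), say
`H ≃* FreeGroup X`. There is a surjective homomorphism `g : FreeGroup (Fin 2) →* FreeGroup X` (`lift` of the two
generators followed by the isomorphism). For every map `X → Multiplicative (ZMod 2)` one has a homomorphism
`FreeGroup X →* Multiplicative (ZMod 2)`, and `ψ ↦ ψ.comp g` is injective, so there are at most `4` maps `X → ZMod 2`,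
so `X` is finite with at most two elements; if it has at most one, `H` is commutative, contradiction (`h`). So
`X ≃ Fin 2`, and `g` becomes a surjective endomorphism of `FreeGroup (Fin 2)`, which is injective by `hopf`.
-/

set_option autoImplicit false

namespace Pool.Agent.H70.WE

private theorem comm_all {X : Type} [Subsingleton X] (u v : FreeGroup X) : Commute u v := by
  have h1 : ∀ (u : FreeGroup X), (∀ x, Commute u (FreeGroup.of x)) → ∀ v : FreeGroup X, Commute u v := by
    intro u hu v
    induction v using FreeGroup.induction_on with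
    | C1 => exact Commute.one_right u
    | of x => exact hu x
    | inv_of x h => exact h.inv_right
    | mul v w hv hw => exact hv.mul_right hw
  refine h1 u (fun x => ?_) v
  refine (h1 (FreeGroup.of x) (fun y => ?_) u).symm
  rw [Subsingleton.elim x y]

private theorem card_two {X : Type} (g : FreeGroup (Fin 2) →* FreeGroup X) (hg : Function.Surjective g) :
    Finite X ∧ Nat.card X ≤ 2 := by
  classical
  let M := Multiplicative (ZMod 2)
  have hinj : Function.Injective (fun t : X → M => FreeGroup.lift.symm ((FreeGroup.lift t).comp g)) := by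
    intro t t' h
    have h1 : (FreeGroup.lift t).comp g = (FreeGroup.lift t').comp g := FreeGroup.lift.symm.injective h
    exact FreeGroup.lift.injective ((MonoidHom.cancel_right hg).1 h1)
  have hfinM : Finite M := inferInstanceAs (Finite (ZMod 2))
  have hfin : Finite (X → M) := Finite.of_injective _ hinj
  have hX : Finite X := by
    refine Finite.of_injective (fun x : X => (Pi.mulSingle x (Multiplicative.ofAdd (1 : ZMod 2)) : X → M)) ?_
    intro x y hxy
    by_contra hne
    have h1 := congrFun hxy x
    simp only at h1
    rw [Pi.mulSingle_eq_same, Pi.mulSingle_eq_of_ne hne] at h1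
    have h2 : (1 : ZMod 2) = 0 := h1
    exact one_ne_zero h2
  refine ⟨hX, ?_⟩
  have h1 := Nat.card_le_card_of_injective _ hinj
  have : Fintype X := Fintype.ofFinite X
  have hM : Nat.card M = 2 := by
    show Nat.card (ZMod 2) = 2
    rw [Nat.card_zmod]
  rw [Nat.card_fun, Nat.card_fun, hM, Nat.card_eq_fintype_card (α := Fin 2), Fintype.card_fin] at h1
  exact (Nat.pow_le_pow_iff_right (by norm_num)).1 h1

theorem fg_inj {α : Type} (a b : FreeGroup α) (h : a * b ≠ b * a) :
    Function.Injective (FreeGroup.lift ![a, b] : FreeGroup (Fin 2) →* FreeGroup α) := by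
  classical
  obtain ⟨f, hf⟩ : ∃ f : FreeGroup (Fin 2) →* FreeGroup α, f = FreeGroup.lift ![a, b] := ⟨_, rfl⟩
  rw [← hf]
  have ha : f (FreeGroup.of 0) = a := by
    rw [hf, FreeGroup.lift_apply_of]
    rfl
  have hb : f (FreeGroup.of 1) = b := by
    rw [hf, FreeGroup.lift_apply_of]
    rfl
  let e := IsFreeGroup.toFreeGroup (G := f.range)
  let g : FreeGroup (Fin 2) →* FreeGroup (IsFreeGroup.Generators f.range) := e.toMonoidHom.comp f.rangeRestrict
  have hg : Function.Surjective g := e.surjective.comp f.rangeRestrict_surjective
  have hgf : ∀ x y, g x = g y → f x = f y := by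
    intro x y hxy
    have h1 : f.rangeRestrict x = f.rangeRestrict y := e.injective hxy
    exact congrArg Subtype.val h1
  obtain ⟨hX, hc⟩ := card_two g hg
  have hc2 : Nat.card (IsFreeGroup.Generators f.range) = 2 := by
    by_contra hne
    have h1 : Nat.card (IsFreeGroup.Generators f.range) ≤ 1 := by omega
    have h2 : Subsingleton (IsFreeGroup.Generators f.range) := Finite.card_le_one_iff_subsingleton.1 h1
    apply h
    have h3 := comm_all (g (FreeGroup.of 0)) (g (FreeGroup.of 1))
    have h4 : g (FreeGroup.of 0 * FreeGroup.of 1) = g (FreeGroup.of 1 * FreeGroup.of 0) := by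
      rw [map_mul, map_mul]
      exact h3
    have h5 := hgf _ _ h4
    rwa [map_mul, map_mul, ha, hb] at h5
  have : Fintype (IsFreeGroup.Generators f.range) := Fintype.ofFinite _
  let e2 : IsFreeGroup.Generators f.range ≃ Fin 2 :=
    Fintype.equivFinOfCardEq (by rw [← Nat.card_eq_fintype_card, hc2])
  let k := FreeGroup.freeGroupCongr e2
  have h6 : Function.Injective (k.toMonoidHom.comp g) := hopf _ (k.surjective.comp hg)
  intro x y hxy
  apply h6
  show k (g x) = k (g y)
  have h7 : f.rangeRestrict x = f.rangeRestrict y := Subtype.ext hxy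
  show k (e (f.rangeRestrict x)) = k (e (f.rangeRestrict y))
  rw [h7]

end Pool.Agent.H70.WE
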