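import Mathlib

/-!
# [H70 WE Wd] Commuting words

`comm_pow`: strong induction on the total length; if `u` is shorter than `v`, then `v = u ++ v'` and `u`
and `v'` commute. `rel_comm`: two words which satisfy a nontrivial relation commute: cancel the common
first letters of `U` and `V`; if one of them is empty, the values are empty, so one of `p, q` is empty;
otherwise the relation says `p ++ s = q ++ t` with `s, t` products of `p` and `q`: if `p` is shorter,
`q = p ++ q'` and `p, q'` satisfy a nontrivial relation (replace the letter `q` by the two letters
`p q'`; different words stay different, since the code is a prefix code up to the first difference);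
strong induction on the total length of `p` and `q` (and then on the lengths of `U, V`).
-/

set_option autoImplicit false

namespace Pool.Agent.H70.WE

private theorem wd_pow_add {α : Type} (w : List α) (i j : ℕ) :
    (List.replicate (i + j) w).flatten =
      (List.replicate i w).flatten ++ (List.replicate j w).flatten := by
  rw [List.replicate_add, List.flatten_append]

private theorem wd_comm_pow {α : Type} : ∀ (n : ℕ) (u v : List α), u.length + v.length ≤ n →
    u ++ v = v ++ u →
    ∃ (w : List α) (i j : ℕ), u = (List.replicate i w).flatten ∧ v = (List.replicate j w).flatten := by
  intro n
  induction n with
  | zero =>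
    intro u v hn _
    have hu : u = [] := List.length_eq_zero_iff.mp (by omega)
    have hv : v = [] := List.length_eq_zero_iff.mp (by omega)
    exact ⟨[], 0, 0, by simp [hu], by simp [hv]⟩
  | succ n ih =>
    intro u v hn h
    by_cases hu : u = []
    · exact ⟨v, 0, 1, by simp [hu], by simp⟩
    by_cases hv : v = []
    · exact ⟨u, 1, 0, by simp, by simp [hv]⟩
    have hu1 : 1 ≤ u.length := List.length_pos_iff.mpr hu
    have hv1 : 1 ≤ v.length := List.length_pos_iff.mpr hv
    rcases le_total u.length v.length with hle | hle
    · have h1 : u <+: u ++ v := List.prefix_append u v
      have h2 : v <+: u ++ v := by rw [h]; exact List.prefix_append v u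
      obtain ⟨v', rfl⟩ := List.prefix_of_prefix_length_le h1 h2 hle
      have h3 : u ++ v' = v' ++ u := by
        rw [List.append_assoc] at h
        exact List.append_cancel_left h
      rw [List.length_append] at hn
      obtain ⟨w, i, j, hi, hj⟩ := ih u v' (by omega) h3
      refine ⟨w, i, i + j, hi, ?_⟩
      rw [wd_pow_add, ← hi, ← hj]
    · have h1 : v <+: u ++ v := by rw [h]; exact List.prefix_append v u
      have h2 : u <+: u ++ v := List.prefix_append u v
      obtain ⟨u', rfl⟩ := List.prefix_of_prefix_length_le h1 h2 hle
      have h3 : u' ++ v = v ++ u' := by
        rw [List.append_assoc] at h
        exact List.append_cancel_left h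
      rw [List.length_append] at hn
      obtain ⟨w, i, j, hi, hj⟩ := ih u' v (by omega) h3
      refine ⟨w, j + i, j, ?_, hj⟩
      rw [wd_pow_add, ← hi, ← hj]

theorem comm_pow {α : Type} (u v : List α) (h : u ++ v = v ++ u) :
    ∃ (w : List α) (i j : ℕ), u = (List.replicate i w).flatten ∧ v = (List.replicate j w).flatten :=
  wd_comm_pow (u.length + v.length) u v le_rfl h

private def wdS {α : Type} (p q : List α) : Bool → List α := fun c => if c then p else q

private theorem wd_rel {α : Type} : ∀ (n : ℕ) (p q : List α) (U V : List Bool),
    p.length + q.length ≤ n → p ++ U.flatMap (wdS p q) = q ++ V.flatMap (wdS p q) →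
    p ++ q = q ++ p := by
  intro n
  induction n with
  | zero =>
    intro p q _ _ hn _
    have hp : p = [] := List.length_eq_zero_iff.mp (by omega)
    simp [hp]
  | succ n ih =>
    intro p q U V hn e
    by_cases hp : p = []
    · simp [hp]
    by_cases hq : q = []
    · simp [hq]
    have hp1 : 1 ≤ p.length := List.length_pos_iff.mpr hp
    have hq1 : 1 ≤ q.length := List.length_pos_iff.mpr hq
    rcases le_total p.length q.length with hle | hle
    · have h1 : p <+: p ++ U.flatMap (wdS p q) := List.prefix_append _ _
      have h2 : q <+: p ++ U.flatMap (wdS p q) := by rw [e]; exact List.prefix_append _ _
      obtain ⟨q', rfl⟩ := List.prefix_of_prefix_length_le h1 h2 hle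
      rw [List.append_assoc] at e
      have e1 := List.append_cancel_left e
      have key : ∀ W : List Bool, W.flatMap (wdS p (p ++ q')) =
          (W.flatMap (fun c => if c then [true] else [true, false])).flatMap (wdS p q') := by
        intro W
        rw [List.flatMap_assoc]
        congr 1
        funext c
        cases c <;> simp [wdS]
      rw [List.length_append] at hn
      cases U with
      | nil =>
        have hq' : q' = [] := by
          simp only [List.flatMap_nil] at e1
          exact (List.append_eq_nil_iff.mp e1.symm).1
        simp [hq']
      | cons c U1 =>
        have h3 : p ++ q' = q' ++ p := by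
          cases c with
          | true =>
            refine ih p q' (U1.flatMap (fun c => if c then [true] else [true, false]))
              (V.flatMap (fun c => if c then [true] else [true, false])) (by omega) ?_
            rw [← key, ← key, ← e1]
            simp [wdS]
          | false =>
            refine ih p q' (false :: U1.flatMap (fun c => if c then [true] else [true, false]))
              (V.flatMap (fun c => if c then [true] else [true, false])) (by omega) ?_
            rw [List.flatMap_cons, ← key, ← key, ← e1]
            simp [wdS]
        rw [List.append_assoc, h3, ← List.append_assoc]
    · have h1 : q <+: p ++ U.flatMap (wdS p q) := by rw [e]; exact List.prefix_append _ _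
      have h2 : p <+: p ++ U.flatMap (wdS p q) := List.prefix_append _ _
      obtain ⟨p', rfl⟩ := List.prefix_of_prefix_length_le h1 h2 hle
      rw [List.append_assoc] at e
      have e1 := List.append_cancel_left e
      have key : ∀ W : List Bool, W.flatMap (wdS (q ++ p') q) =
          (W.flatMap (fun c => if c then [false, true] else [false])).flatMap (wdS p' q) := by
        intro W
        rw [List.flatMap_assoc]
        congr 1
        funext c
        cases c <;> simp [wdS]
      rw [List.length_append] at hn
      cases V with
      | nil =>
        have hp' : p' = [] := by
          simp only [List.flatMap_nil] at e1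
          exact (List.append_eq_nil_iff.mp e1).1
        simp [hp']
      | cons c V1 =>
        have h3 : p' ++ q = q ++ p' := by
          cases c with
          | true =>
            refine ih p' q (U.flatMap (fun c => if c then [false, true] else [false]))
              (true :: V1.flatMap (fun c => if c then [false, true] else [false])) (by omega) ?_
            rw [List.flatMap_cons, ← key, ← key, e1]
            simp [wdS]
          | false =>
            refine ih p' q (U.flatMap (fun c => if c then [false, true] else [false]))
              (V1.flatMap (fun c => if c then [false, true] else [false])) (by omega) ?_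
            rw [← key, ← key, e1]
            simp [wdS]
        rw [List.append_assoc, h3]

private theorem wd_relc {α : Type} (p q : List α) : ∀ (U V : List Bool), U ≠ V →
    U.flatMap (wdS p q) = V.flatMap (wdS p q) → p ++ q = q ++ p := by
  intro U
  induction U with
  | nil =>
    intro V hne e
    cases V with
    | nil => exact absurd rfl hne
    | cons c V1 =>
      rw [List.flatMap_nil, List.flatMap_cons] at e
      have h1 := (List.append_eq_nil_iff.mp e.symm).1
      cases c with
      | true =>
        have h2 : p = [] := by simpa [wdS] using h1
        simp [h2]
      | false =>
        have h2 : q = [] := by simpa [wdS] using h1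
        simp [h2]
  | cons c U1 ih =>
    intro V hne e
    cases V with
    | nil =>
      rw [List.flatMap_nil, List.flatMap_cons] at e
      have h1 := (List.append_eq_nil_iff.mp e).1
      cases c with
      | true =>
        have h2 : p = [] := by simpa [wdS] using h1
        simp [h2]
      | false =>
        have h2 : q = [] := by simpa [wdS] using h1
        simp [h2]
    | cons d V1 =>
      rw [List.flatMap_cons, List.flatMap_cons] at e
      by_cases hcd : c = d
      · subst hcd
        exact ih V1 (fun h => hne (by rw [h])) (List.append_cancel_left e)
      · cases c with
        | true =>
          cases d with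
          | true => exact absurd rfl hcd
          | false =>
            exact wd_rel (p.length + q.length) p q U1 V1 le_rfl (by simpa [wdS] using e)
        | false =>
          cases d with
          | false => exact absurd rfl hcd
          | true =>
            exact wd_rel (p.length + q.length) p q V1 U1 le_rfl (by simpa [wdS] using e.symm)

theorem rel_comm {α : Type} (p q : List α) (U V : List Bool) (h : U ≠ V)
    (e : U.flatMap (fun c => if c then p else q) = V.flatMap (fun c => if c then p else q)) :
    p ++ q = q ++ p :=
  wd_relc p q U V h e

end Pool.Agent.H70.WE
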