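import Pool.Agent.H70.WE.Np
import Pool.Agent.H70.WE.FGInj
import Pool.Agent.H70.WE.Wd
import Pool.Agent.H93.TH.FG

/-!
# [H70 WE Typ] The type of a non periodic morphism for which the two words commute
-/

set_option autoImplicit false

namespace Pool.Agent.H70.WE

open Pool.Agent.H93.TW

variable {α : Type}

/-- the `n`-th power of a word -/
def pow (w : List α) (n : ℕ) : List α := (List.replicate n w).flatten

theorem pow_zero' (w : List α) : pow w 0 = [] := rfl

theorem pow_add' (w : List α) (m n : ℕ) : pow w (m + n) = pow w m ++ pow w n := by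
  unfold pow
  rw [List.replicate_add, List.flatten_append]

theorem pow_length (w : List α) (n : ℕ) : (pow w n).length = n * w.length := by
  unfold pow
  simp [List.length_flatten]

theorem pow_nil (n : ℕ) : pow ([] : List α) n = [] := by
  apply List.eq_nil_of_length_eq_zero
  rw [pow_length]
  simp

theorem pow_mul' (w : List α) (m n : ℕ) : pow w (m * n) = pow (pow w m) n := by
  induction n with
  | zero => rw [Nat.mul_zero]; rfl
  | succ n ih =>
    rw [Nat.mul_succ, pow_add', ih, pow_add' (pow w m) n 1]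
    congr 1
    unfold pow
    simp

theorem io_pow (w : List α) (n : ℕ) : io (pow w n) = io w ^ n := by
  induction n with
  | zero => rfl
  | succ n ih =>
    rw [pow_add', io_append, ih, pow_succ]
    congr 1
    unfold pow
    simp

/-- a factor between two powers inside a power is a power -/
theorem mid_pow {ρ u : List α} {s t c : ℕ} (h : pow ρ s ++ u ++ pow ρ t = pow ρ c) :
    ∃ n, u = pow ρ n := by
  rcases List.eq_nil_or_concat ρ with hρ | hρ
  · refine ⟨0, ?_⟩
    subst hρ
    rw [pow_nil, pow_nil, pow_nil] at h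
    simpa [pow_zero'] using h
  · have hpos : 0 < ρ.length := by
      obtain ⟨x, y, rfl⟩ := hρ
      simp
    have hl := congrArg List.length h
    rw [List.length_append, List.length_append, pow_length, pow_length, pow_length] at hl
    have hle : s + t ≤ c := by
      by_contra hcon
      have h1 : c + 1 ≤ s + t := by omega
      have h2 := Nat.mul_le_mul_right ρ.length h1
      rw [Nat.add_mul, Nat.add_mul] at h2
      omega
    refine ⟨c - s - t, ?_⟩
    have h1 : c = s + (c - s - t) + t := by omega
    rw [h1, pow_add', pow_add'] at h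
    have h2 := List.append_cancel_right h
    exact List.append_cancel_left h2

theorem val_append (h : Fin 3 → List α) (U V : List (Fin 3)) : val h (U ++ V) = val h U ++ val h V := by
  unfold val
  rw [List.flatMap_append]

theorem val_replicate (h : Fin 3 → List α) (n : ℕ) (c : Fin 3) :
    val h (List.replicate n c) = pow (h c) n := by
  unfold val pow
  induction n with
  | zero => rfl
  | succ n ih => rw [List.replicate_succ, List.flatMap_cons, ih, List.replicate_succ, List.flatten_cons]

theorem val_pw (h : Fin 3 → List α) (m k : ℕ) :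
    val h (pw m k) = pow (h 1) m ++ h 0 ++ pow (h 1) k := by
  unfold pw
  rw [show (0 : Fin 3) :: List.replicate k 1 = [0] ++ List.replicate k 1 from rfl, val_append, val_append,
    val_replicate, val_replicate, ← List.append_assoc]
  congr 2
  unfold val
  simp

theorem val_qw (h : Fin 3 → List α) (a b : ℕ) :
    val h (qw a b) = pow (h 1) a ++ h 2 ++ pow (h 1) b := by
  unfold qw
  rw [show (2 : Fin 3) :: List.replicate b 1 = [2] ++ List.replicate b 1 from rfl, val_append, val_append,
    val_replicate, val_replicate, ← List.append_assoc]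
  congr 2
  unfold val
  simp

/-- the homomorphism `A ↦ W, B ↦ Y` -/
noncomputable def th (W Y : FreeGroup α) : G2 →* FreeGroup α :=
  Monoid.CoprodI.lift (fun i => zpowersHom (FreeGroup α) (if i = 0 then W else Y))

theorem th_A (W Y : FreeGroup α) : th W Y gA = W := by
  unfold th gA
  rw [Monoid.CoprodI.lift_of]
  simp [zpowersHom_apply]

theorem th_B (W Y : FreeGroup α) : th W Y gB = Y := by
  unfold th gB
  rw [Monoid.CoprodI.lift_of]
  simp [zpowersHom_apply]

theorem ps_surj : Function.Surjective (FreeGroup.lift ![gA, gB] : FreeGroup (Fin 2) →* G2) := by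
  intro g
  induction g using Monoid.CoprodI.induction_on with
  | one => exact ⟨1, map_one _⟩
  | of i x =>
    refine ⟨FreeGroup.of i ^ (Multiplicative.toAdd x), ?_⟩
    rw [map_zpow, FreeGroup.lift_apply_of]
    fin_cases i
    · show gA ^ _ = _
      unfold gA
      rw [← map_zpow]
      congr 1
      rw [← ofAdd_zsmul]
      simp
    · show gB ^ _ = _
      unfold gB
      rw [← map_zpow]
      congr 1
      rw [← ofAdd_zsmul]
      simp
  | mul x y hx hy =>
    obtain ⟨u, rfl⟩ := hx
    obtain ⟨v, rfl⟩ := hy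
    exact ⟨u * v, map_mul _ _ _⟩

theorem th_inj (W Y : FreeGroup α) (h : W * Y ≠ Y * W) : Function.Injective (th W Y) := by
  have h1 : (th W Y).comp (FreeGroup.lift ![gA, gB]) = FreeGroup.lift ![W, Y] := by
    ext i
    fin_cases i
    · simp [th_A]
    · simp [th_B]
  have h2 := fg_inj W Y h
  intro g g' hg
  obtain ⟨u, rfl⟩ := ps_surj g
  obtain ⟨v, rfl⟩ := ps_surj g'
  have h3 : (FreeGroup.lift ![W, Y]) u = (FreeGroup.lift ![W, Y]) v := by
    rw [← h1]
    exact hg
  rw [h2 h3]

theorem io_ge {h : Fin 3 → List α} {m k a b j i : ℕ} {w : List α}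
    (hP : val h (pw m k) = pow w j) (hQ : val h (qw a b) = pow w i) (c : Fin 3) :
    io (h c) = th (io w) (io (h 1)) (ge m k a b j i c) := by
  rw [val_pw] at hP
  rw [val_qw] at hQ
  have hP1 := congrArg io hP
  have hQ1 := congrArg io hQ
  rw [io_append, io_append, io_pow, io_pow, io_pow] at hP1 hQ1
  fin_cases c
  · show io (h 0) = th (io w) (io (h 1)) (gB ^ (-(m : ℤ)) * gA ^ j * gB ^ (-(k : ℤ)))
    rw [map_mul, map_mul, map_zpow, map_pow, map_zpow, th_A, th_B, ← hP1]
    rw [zpow_neg, zpow_neg, zpow_natCast, zpow_natCast]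
    group
  · show io (h 1) = th (io w) (io (h 1)) gB
    rw [th_B]
  · show io (h 2) = th (io w) (io (h 1)) (gB ^ (-(a : ℤ)) * gA ^ i * gB ^ (-(b : ℤ)))
    rw [map_mul, map_mul, map_zpow, map_pow, map_zpow, th_A, th_B, ← hQ1]
    rw [zpow_neg, zpow_neg, zpow_natCast, zpow_natCast]
    group

theorem io_val {h : Fin 3 → List α} {m k a b j i : ℕ} {w : List α}
    (hP : val h (pw m k) = pow w j) (hQ : val h (qw a b) = pow w i) (U : List (Fin 3)) :
    io (val h U) = th (io w) (io (h 1)) (gev m k a b j i U) := by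
  induction U with
  | nil =>
    show io ([] : List α) = th _ _ 1
    rw [map_one]
    rfl
  | cons c U ih =>
    have h1 : val h (c :: U) = h c ++ val h U := by
      unfold val
      rw [List.flatMap_cons]
    have h2 : gev m k a b j i (c :: U) = ge m k a b j i c * gev m k a b j i U := by
      unfold gev
      rw [List.map_cons, List.prod_cons]
    rw [h1, h2, io_append, map_mul, ih, io_ge hP hQ c]

theorem pow_ne_nil {w : List α} {n : ℕ} (hw : w ≠ []) (hn : 0 < n) : pow w n ≠ [] := by
  intro h
  have h1 := congrArg List.length h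
  rw [pow_length, List.length_nil] at h1
  rcases Nat.mul_eq_zero.1 h1 with h2 | h2
  · omega
  · exact hw (List.eq_nil_of_length_eq_zero h2)

/-- the type of a non periodic morphism which makes the two words commute -/
theorem typ (m k a b : ℕ) (h : Fin 3 → List α) (hn : ¬ Per h)
    (hc : val h (pw m k ++ qw a b) = val h (qw a b ++ pw m k)) :
    ∃ j i : ℕ, Adm m k a b j i ∧
      ∀ E : List (Fin 3) × List (Fin 3), Solves h E ↔ EqAt m k a b j i E := by
  rw [val_append, val_append] at hc
  obtain ⟨w0, j0, i0, hP0, hQ0⟩ := comm_pow _ _ hc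
  change val h (pw m k) = pow w0 j0 at hP0
  change val h (qw a b) = pow w0 i0 at hQ0
  -- not both words are empty
  have hne : ¬ (val h (pw m k) = [] ∧ val h (qw a b) = []) := by
    rintro ⟨e1, e2⟩
    rw [val_pw] at e1
    rw [val_qw] at e2
    have f1 : h 0 = [] := by
      have := (List.append_eq_nil_iff.1 e1).1
      exact (List.append_eq_nil_iff.1 this).2
    have f2 : h 2 = [] := by
      have := (List.append_eq_nil_iff.1 e2).1
      exact (List.append_eq_nil_iff.1 this).2
    apply hn
    refine ⟨h 1, fun c => ?_⟩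
    fin_cases c
    · exact ⟨0, f1⟩
    · exact ⟨1, by simp⟩
    · exact ⟨0, f2⟩
  have hw0 : w0 ≠ [] := by
    rintro rfl
    exact hne ⟨by rw [hP0, pow_nil], by rw [hQ0, pow_nil]⟩
  have hji0 : 0 < Nat.gcd j0 i0 := by
    rcases Nat.eq_zero_or_pos (Nat.gcd j0 i0) with h0 | h0
    · exfalso
      have h1 := Nat.gcd_eq_zero_iff.1 h0
      exact hne ⟨by rw [hP0, h1.1]; rfl, by rw [hQ0, h1.2]; rfl⟩
    · exact h0
  obtain ⟨g, j, i, hg, hco, hj0, hi0⟩ : ∃ g j i : ℕ, 0 < g ∧ Nat.Coprime j i ∧ j0 = g * j ∧ i0 = g * i := by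
    refine ⟨Nat.gcd j0 i0, j0 / Nat.gcd j0 i0, i0 / Nat.gcd j0 i0, hji0,
      Nat.coprime_div_gcd_div_gcd hji0, ?_, ?_⟩
    · exact (Nat.mul_div_cancel' (Nat.gcd_dvd_left j0 i0)).symm
    · exact (Nat.mul_div_cancel' (Nat.gcd_dvd_right j0 i0)).symm
  set w := pow w0 g with hwdef
  have hw : w ≠ [] := pow_ne_nil hw0 hg
  have hP : val h (pw m k) = pow w j := by rw [hP0, hj0, pow_mul']
  have hQ : val h (qw a b) = pow w i := by rw [hQ0, hi0, pow_mul']
  -- `w` and `h 1` do not commute
  have hnc : io w * io (h 1) ≠ io (h 1) * io w := by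
    intro he
    rw [← io_append, ← io_append] at he
    have he2 := io_inj he
    obtain ⟨ρ, c, d, hc1, hd1⟩ := comm_pow _ _ he2
    change w = pow ρ c at hc1
    change h 1 = pow ρ d at hd1
    have e1 := hP
    have e2 := hQ
    rw [val_pw, hd1, hc1, ← pow_mul', ← pow_mul', ← pow_mul'] at e1
    rw [val_qw, hd1, hc1, ← pow_mul', ← pow_mul', ← pow_mul'] at e2
    obtain ⟨n1, hn1⟩ := mid_pow e1
    obtain ⟨n2, hn2⟩ := mid_pow e2
    apply hn
    refine ⟨ρ, fun c => ?_⟩
    fin_cases c
    · exact ⟨n1, hn1⟩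
    · exact ⟨d, hd1⟩
    · exact ⟨n2, hn2⟩
  have hy : h 1 ≠ [] := by
    intro h0
    apply hnc
    rw [h0]
    show io w * 1 = 1 * io w
    rw [mul_one, one_mul]
  refine ⟨j, i, ⟨hco, ?_, ?_⟩, ?_⟩
  · intro hi
    rw [hi, val_qw] at hQ
    have e1 : pow (h 1) a ++ h 2 ++ pow (h 1) b = [] := hQ
    have e2 := (List.append_eq_nil_iff.1 e1).2
    have e3 := (List.append_eq_nil_iff.1 (List.append_eq_nil_iff.1 e1).1).1
    refine ⟨?_, ?_⟩
    · by_contra ha
      exact pow_ne_nil hy (Nat.pos_of_ne_zero ha) e3
    · by_contra hb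
      exact pow_ne_nil hy (Nat.pos_of_ne_zero hb) e2
  · intro hj
    rw [hj, val_pw] at hP
    have e1 : pow (h 1) m ++ h 0 ++ pow (h 1) k = [] := hP
    have e2 := (List.append_eq_nil_iff.1 e1).2
    have e3 := (List.append_eq_nil_iff.1 (List.append_eq_nil_iff.1 e1).1).1
    refine ⟨?_, ?_⟩
    · by_contra hm
      exact pow_ne_nil hy (Nat.pos_of_ne_zero hm) e3
    · by_contra hk
      exact pow_ne_nil hy (Nat.pos_of_ne_zero hk) e2
  · intro E
    unfold Solves EqAt
    constructor
    · intro he
      apply th_inj _ _ hnc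
      rw [← io_val hP hQ, ← io_val hP hQ, he]
    · intro he
      apply io_inj
      rw [io_val hP hQ, io_val hP hQ, he]

end Pool.Agent.H70.WE
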