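import Mathlib

/-!
# [H70 WE] Chains of word equations in three unknowns which start with commuting words: definitions

MP_e8f906_co. The unknowns are `0, 1, 2 : Fin 3`, that is `x, y, z`.
-/

set_option autoImplicit false

namespace Pool.Agent.H70.WE

/-- the value of the word `U` in the unknowns `x = 0, y = 1, z = 2` under the morphism `h` -/
def val {α : Type} (h : Fin 3 → List α) (U : List (Fin 3)) : List α := U.flatMap h

/-- `h` is a solution of the equation `E.1 = E.2` -/
def Solves {α : Type} (h : Fin 3 → List α) (E : List (Fin 3) × List (Fin 3)) : Prop :=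
  val h E.1 = val h E.2

/-- `E 0, ..., E (n - 1)` is a decreasing chain of equations over the alphabet `α` -/
def Decreasing (α : Type) (n : ℕ) (E : Fin n → List (Fin 3) × List (Fin 3)) : Prop :=
  ∀ i : Fin n, ∃ h : Fin 3 → List α, (∀ j : Fin n, j < i → Solves h (E j)) ∧ ¬ Solves h (E i)

/-- the word `y^m x y^k` -/
def pw (m k : ℕ) : List (Fin 3) := List.replicate m 1 ++ 0 :: List.replicate k 1

/-- the word `y^a z y^b` -/
def qw (a b : ℕ) : List (Fin 3) := List.replicate a 1 ++ 2 :: List.replicate b 1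

/-- `h` is periodic: the three values are powers of one word -/
def Per {α : Type} (h : Fin 3 → List α) : Prop :=
  ∃ w : List α, ∀ c : Fin 3, ∃ n : ℕ, h c = (List.replicate n w).flatten

/-- the free group on two generators, as a free product of two infinite cyclic groups -/
abbrev G2 : Type := Monoid.CoprodI (fun _ : Fin 2 => Multiplicative ℤ)

/-- first generator -/
def gA : G2 := Monoid.CoprodI.of (i := (0 : Fin 2)) (Multiplicative.ofAdd (1 : ℤ))

/-- second generator -/
def gB : G2 := Monoid.CoprodI.of (i := (1 : Fin 2)) (Multiplicative.ofAdd (1 : ℤ))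

/-- `x ↦ B^(-m) A^j B^(-k)`, `y ↦ B`, `z ↦ B^(-a) A^i B^(-b)` -/
def ge (m k a b j i : ℕ) : Fin 3 → G2 :=
  ![gB ^ (-(m : ℤ)) * gA ^ j * gB ^ (-(k : ℤ)), gB, gB ^ (-(a : ℤ)) * gA ^ i * gB ^ (-(b : ℤ))]

/-- the value of a word under `ge` -/
def gev (m k a b j i : ℕ) (U : List (Fin 3)) : G2 := (U.map (ge m k a b j i)).prod

/-- the equation holds at the type `(j, i)` -/
def EqAt (m k a b j i : ℕ) (E : List (Fin 3) × List (Fin 3)) : Prop :=
  gev m k a b j i E.1 = gev m k a b j i E.2

/-- `B^e1 A^s1 B^e2 A^s2 ... B^en A^sn B^f` -/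
def ev2 : List (ℤ × ℕ) → ℤ → G2
  | [], f => gB ^ f
  | (e, s) :: L, f => gB ^ e * gA ^ s * ev2 L f

/-- normal form: positive powers of `A`, and inner powers of `B` with nonzero exponents -/
def Good (L : List (ℤ × ℕ)) : Prop := (∀ p ∈ L, 0 < p.2) ∧ ∀ p ∈ L.tail, p.1 ≠ 0

end Pool.Agent.H70.WE
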