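import Mathlib

/-!
# [H70 WE FGHopf] The free group of rank two is residually finite and Hopfian

`res_fin`: `n` the length of the reduced word `g = l_1 ... l_n` (`FreeGroup.toWord`); take `Perm (Fin (n + 1))`;
the generator `x` is any permutation which extends the partial injection given by the letters `l_t = x^±1`,
moving `t - 1` to `t` or back (it is injective because the word is reduced; `exists_equiv_extend_of_card_eq` or
`Equiv.Perm` extension of a partial injection on a finite type); then `g` moves `0` to `n` (or `n` to `0`, according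
to the convention). Any other proof of residual finiteness is fine too (for example Sanov's matrices modulo a
prime, or `Monoid.CoprodI`). `hopf`: if `f g = 1`, `g ≠ 1`, take `φ` with `φ g ≠ 1` from `res_fin`. The set of homomorphisms
`FreeGroup (Fin 2) →* Perm (Fin n)` is finite (`FreeGroup.lift` is an equivalence from `Fin 2 → Perm (Fin n)`),
`ψ ↦ ψ.comp f` is injective on it (`f` is surjective), so surjective, `φ = ψ.comp f`, `φ g = ψ (f g) = 1`.
-/

set_option autoImplicit false

namespace Pool.Agent.H70.WE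

/-- A partial injection of a finite type extends to a permutation. -/
private theorem extend_perm {V : Type*} [Finite V] (s : Set V) (f : V → V) (hf : Set.InjOn f s) :
    ∃ σ : Equiv.Perm V, ∀ v ∈ s, σ v = f v := by
  classical
  have := Fintype.ofFinite V
  obtain ⟨g, hg⟩ := Set.MapsTo.exists_equiv_extend_of_card_eq (α := V) (β := V)
    (t := Finset.univ) (by rw [Finset.card_univ]) (s := s) (f := f)
    (fun x _ => Finset.mem_coe.2 (Finset.mem_univ _)) hf
  refine ⟨g.trans (Equiv.subtypeUnivEquiv fun x => Finset.mem_univ x), fun v hv => ?_⟩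
  exact hg v hv

/-- free groups of rank two are residually finite -/
theorem res_fin (g : FreeGroup (Fin 2)) (hg : g ≠ 1) :
    ∃ (n : ℕ) (φ : FreeGroup (Fin 2) →* Equiv.Perm (Fin n)), φ g ≠ 1 := by
  classical
  obtain ⟨m, hm⟩ : ∃ m, m = g.toWord.length := ⟨_, rfl⟩
  obtain ⟨W, hW⟩ : ∃ W : Set (FreeGroup (Fin 2)), W = {h | h.norm ≤ m} := ⟨_, rfl⟩
  have hWm : ∀ L : List (Fin 2 × Bool), L.length ≤ m → FreeGroup.mk L ∈ W := fun L hL => by
    rw [hW]
    exact FreeGroup.norm_mk_le.trans hL
  have hfin : W.Finite := by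
    refine ((List.finite_length_le (Fin 2 × Bool) m).image FreeGroup.mk).subset ?_
    intro h hh
    rw [hW] at hh
    exact ⟨h.toWord, hh, FreeGroup.mk_toWord⟩
  have : Finite W := hfin.to_subtype
  have hstep : ∀ x : Fin 2, ∃ σ : Equiv.Perm W, ∀ (v : W) (hv : FreeGroup.of x * v.1 ∈ W),
      σ v = ⟨FreeGroup.of x * v.1, hv⟩ := by
    intro x
    obtain ⟨σ, hσ⟩ := extend_perm {v : W | FreeGroup.of x * v.1 ∈ W}
      (fun v => if hv : FreeGroup.of x * v.1 ∈ W then ⟨FreeGroup.of x * v.1, hv⟩ else v) (by
        intro v hv w hw hvw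
        have hv' : FreeGroup.of x * v.1 ∈ W := hv
        have hw' : FreeGroup.of x * w.1 ∈ W := hw
        have h1 : (⟨FreeGroup.of x * v.1, hv'⟩ : W) = ⟨FreeGroup.of x * w.1, hw'⟩ := by
          simpa only [dif_pos hv', dif_pos hw'] using hvw
        exact Subtype.ext (mul_left_cancel (congrArg Subtype.val h1)))
    refine ⟨σ, fun v hv => ?_⟩
    rw [hσ v hv]
    exact dif_pos hv
  choose σ hσ using hstep
  have h1 : (1 : FreeGroup (Fin 2)) ∈ W := hWm [] (Nat.zero_le _)
  have key : ∀ L : List (Fin 2 × Bool), ∀ hL : L.length ≤ m,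
      FreeGroup.lift σ (FreeGroup.mk L) ⟨1, h1⟩ = ⟨FreeGroup.mk L, hWm L hL⟩ := by
    intro L
    induction L with
    | nil =>
      intro hL
      have h2 : (FreeGroup.mk ([] : List (Fin 2 × Bool))) = 1 := rfl
      have h3 : FreeGroup.lift σ (FreeGroup.mk ([] : List (Fin 2 × Bool))) = 1 := by
        rw [h2, map_one]
      rw [h3]
      rfl
    | cons l L ih =>
      intro hL
      have hL' : L.length ≤ m := by
        rw [List.length_cons] at hL
        omega
      have h2 := ih hL'
      obtain ⟨x, b⟩ := l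
      have h3 : FreeGroup.mk ((x, b) :: L) = FreeGroup.mk [(x, b)] * FreeGroup.mk L := by
        rw [FreeGroup.mul_mk]
        rfl
      have h4 : FreeGroup.lift σ (FreeGroup.mk ((x, b) :: L)) ⟨1, h1⟩ =
          FreeGroup.lift σ (FreeGroup.mk [(x, b)]) ⟨FreeGroup.mk L, hWm L hL'⟩ := by
        rw [h3, map_mul, Equiv.Perm.mul_apply, h2]
      rw [h4]
      cases b with
      | true =>
        have h5 : FreeGroup.lift σ (FreeGroup.mk [(x, true)]) = σ x := FreeGroup.lift_apply_of
        have h6 : FreeGroup.of x * FreeGroup.mk L = FreeGroup.mk ((x, true) :: L) := h3.symm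
        have h7 : FreeGroup.of x * FreeGroup.mk L ∈ W := by
          rw [h6]
          exact hWm _ hL
        rw [h5, hσ x ⟨FreeGroup.mk L, hWm L hL'⟩ h7]
        exact Subtype.ext h6
      | false =>
        have h5 : FreeGroup.lift σ (FreeGroup.mk [(x, false)]) = (σ x)⁻¹ := by
          rw [FreeGroup.lift_mk]
          simp
        have h6 : FreeGroup.of x * FreeGroup.mk ((x, false) :: L) = FreeGroup.mk L := by
          rw [h3]
          have h8 : FreeGroup.mk [(x, false)] = (FreeGroup.of x)⁻¹ := rfl
          rw [h8, mul_inv_cancel_left]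
        have h7 : FreeGroup.of x * FreeGroup.mk ((x, false) :: L) ∈ W := by
          rw [h6]
          exact hWm _ hL'
        have h9 := hσ x ⟨FreeGroup.mk ((x, false) :: L), hWm _ hL⟩ h7
        rw [h5, Equiv.Perm.inv_eq_iff_eq, h9]
        exact Subtype.ext h6.symm
  have hg1 := key g.toWord hm.ge
  have : Fintype W := Fintype.ofFinite W
  refine ⟨Fintype.card W, (Equiv.permCongrHom (Fintype.equivFin W)).toMonoidHom.comp
    (FreeGroup.lift σ), fun h => ?_⟩
  have h2 : FreeGroup.lift σ g = 1 := by
    have h3 : (Equiv.permCongrHom (Fintype.equivFin W)) (FreeGroup.lift σ g) = 1 := h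
    exact (MulEquiv.map_eq_one_iff _).1 h3
  have h3 := congrArg Subtype.val hg1
  have h4 : FreeGroup.mk g.toWord = g := FreeGroup.mk_toWord
  have h5 : FreeGroup.lift σ (FreeGroup.mk g.toWord) = 1 := by
    rw [h4]
    exact h2
  have h6 : ((⟨1, h1⟩ : W) : FreeGroup (Fin 2)) = FreeGroup.mk g.toWord := by
    rw [h5] at h3
    exact h3
  exact hg (h6.trans h4).symm

/-- the free group of rank two is Hopfian -/
theorem hopf (f : FreeGroup (Fin 2) →* FreeGroup (Fin 2)) (hf : Function.Surjective f) :
    Function.Injective f := by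
  rw [injective_iff_map_eq_one]
  intro g hg
  by_contra hne
  obtain ⟨n, φ, hφ⟩ := res_fin g hne
  have hfin : Finite (FreeGroup (Fin 2) →* Equiv.Perm (Fin n)) :=
    Finite.of_equiv (Fin 2 → Equiv.Perm (Fin n)) FreeGroup.lift
  have hinj : Function.Injective
      (fun ψ : FreeGroup (Fin 2) →* Equiv.Perm (Fin n) => ψ.comp f) := by
    intro ψ ψ' h
    exact (MonoidHom.cancel_right hf).1 h
  obtain ⟨ψ, hψ⟩ := (Finite.injective_iff_surjective.1 hinj) φ
  apply hφ
  have h1 : ψ.comp f = φ := hψ
  rw [← h1, MonoidHom.comp_apply, hg, map_one]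

end Pool.Agent.H70.WE
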