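import Pool.Agent.H70.WE.Defs

/-!
# [H70 WE Pb] At most three periodic witnesses

Proof. If `h c = (replicate (v c) w).flatten`, `w ≠ []`, then `Solves h E` iff the lengths agree iff
`∑ c, (count c E.1 - count c E.2) * v c = 0` (integers), since `val h U` is the power of `w` with exponent
`∑ c, count c U * v c` (`List.length_flatMap`, or induction on `U`); if `w = []` (or all `v c = 0`) then `h`
solves every equation, so a witness has `w ≠ []`. The `r × r` matrix `M i j = ∑ c, (v_i c) (λ_j c)` over `ℚ`
is the product of an `r × 3` and a `3 × r` matrix, and it is triangular (`M i j = 0` for `j < i`) with nonzero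
diagonal, so its determinant is nonzero and its rank `r` is at most `3` (`Matrix.det_of_upperTriangular`,
`Matrix.rank_mul_le_left`, `Matrix.rank_of_isUnit`, `Matrix.rank_le_card_width`). The same for an
increasing subsequence of a longer chain: here `r` equations and `r` witnesses.
-/

set_option autoImplicit false

namespace Pool.Agent.H70.WE

/-- the exponent of `val h U` -/
private def pbE (v : Fin 3 → ℕ) (U : List (Fin 3)) : ℕ := (U.map v).sum

private theorem pb_val {α : Type} (h : Fin 3 → List α) (w : List α) (v : Fin 3 → ℕ)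
    (hv : ∀ c, h c = (List.replicate (v c) w).flatten) (U : List (Fin 3)) :
    val h U = (List.replicate (pbE v U) w).flatten := by
  induction U with
  | nil => simp [val, pbE]
  | cons c U ih =>
    have e1 : val h (c :: U) = h c ++ val h U := by simp [val]
    have e2 : pbE v (c :: U) = v c + pbE v U := by simp [pbE]
    rw [e1, e2, ih, hv c, List.replicate_add, List.flatten_append]

private theorem pb_E_eq (v : Fin 3 → ℕ) (U : List (Fin 3)) :
    pbE v U = ∑ c, U.count c * v c := by
  induction U with
  | nil => simp [pbE]
  | cons c U ih =>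
    have e2 : pbE v (c :: U) = v c + pbE v U := by simp [pbE]
    rw [e2, ih]
    have e3 : ∀ d : Fin 3, (c :: U).count d * v d = (if d = c then v d else 0) + U.count d * v d := by
      intro d
      by_cases hd : d = c
      · subst hd
        rw [List.count_cons_self, if_pos rfl]
        ring
      · rw [List.count_cons_of_ne (Ne.symm hd), if_neg hd]
        ring
    rw [Finset.sum_congr rfl (fun d _ => e3 d), Finset.sum_add_distrib, Finset.sum_ite_eq']
    simp

private theorem pb_iff {α : Type} (h : Fin 3 → List α) (w : List α) (v : Fin 3 → ℕ)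
    (hv : ∀ c, h c = (List.replicate (v c) w).flatten) (E : List (Fin 3) × List (Fin 3)) :
    Solves h E ↔ w = [] ∨ ∑ c, (v c : ℚ) * ((E.1.count c : ℚ) - (E.2.count c : ℚ)) = 0 := by
  have e : ∑ c, (v c : ℚ) * ((E.1.count c : ℚ) - (E.2.count c : ℚ)) = (pbE v E.1 : ℚ) - (pbE v E.2 : ℚ) := by
    rw [pb_E_eq, pb_E_eq]
    push_cast
    rw [← Finset.sum_sub_distrib]
    exact Finset.sum_congr rfl fun c _ => by ring
  rw [e, Solves, pb_val h w v hv, pb_val h w v hv]
  constructor
  · intro hs
    by_cases hw : w = []
    · exact Or.inl hw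
    · right
      have hl := congrArg List.length hs
      rw [List.length_flatten, List.length_flatten] at hl
      simp only [List.map_replicate, List.sum_replicate, smul_eq_mul] at hl
      have hw' : 0 < w.length := List.length_pos_iff.mpr hw
      have := Nat.eq_of_mul_eq_mul_right hw' hl
      rw [this, sub_self]
  · rintro (hw | hs)
    · subst hw
      simp
    · have : pbE v E.1 = pbE v E.2 := by
        have := sub_eq_zero.1 hs
        exact_mod_cast this
      rw [this]

theorem per_bound {α : Type} {r : ℕ} (E : Fin r → List (Fin 3) × List (Fin 3))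
    (h : Fin r → Fin 3 → List α) (hp : ∀ i, Per (h i)) (hs : ∀ i j, j < i → Solves (h i) (E j))
    (hn : ∀ i, ¬ Solves (h i) (E i)) : r ≤ 3 := by
  choose w hw using hp
  choose v hv using hw
  let A : Matrix (Fin r) (Fin 3) ℚ := Matrix.of fun i c => (v i c : ℚ)
  let B : Matrix (Fin 3) (Fin r) ℚ := Matrix.of fun c j =>
    (((E j).1.count c : ℚ) - ((E j).2.count c : ℚ))
  have hM : ∀ i j, (A * B) i j = ∑ c, (v i c : ℚ) * (((E j).1.count c : ℚ) - ((E j).2.count c : ℚ)) := by
    intro i j
    rw [Matrix.mul_apply]
    rfl
  have hwne : ∀ i, w i ≠ [] := by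
    intro i hwi
    exact hn i ((pb_iff (h i) (w i) (v i) (hv i) (E i)).2 (Or.inl hwi))
  have hdiag : ∀ i, (A * B) i i ≠ 0 := by
    intro i h0
    rw [hM] at h0
    exact hn i ((pb_iff (h i) (w i) (v i) (hv i) (E i)).2 (Or.inr h0))
  have htri : (A * B).BlockTriangular id := by
    intro i j hij
    rw [hM]
    rcases (pb_iff (h i) (w i) (v i) (hv i) (E j)).1 (hs i j hij) with h0 | h0
    · exact absurd h0 (hwne i)
    · exact h0
  have hdet : (A * B).det ≠ 0 := by
    rw [Matrix.det_of_upperTriangular htri]
    exact Finset.prod_ne_zero_iff.2 fun i _ => hdiag i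
  have hunit : IsUnit (A * B) := (Matrix.isUnit_iff_isUnit_det _).2 (isUnit_iff_ne_zero.2 hdet)
  have hrank : (A * B).rank = r := by
    rw [Matrix.rank_of_isUnit _ hunit, Fintype.card_fin]
  calc r = (A * B).rank := hrank.symm
    _ ≤ A.rank := Matrix.rank_mul_le_left A B
    _ ≤ Fintype.card (Fin 3) := Matrix.rank_le_card_width A
    _ = 3 := Fintype.card_fin 3

end Pool.Agent.H70.WE
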