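import Pool.Agent.H70.WE.Typ
import Pool.Agent.H70.WE.Pb

/-!
# [H70 WE Fin] The bound
-/

set_option autoImplicit false

namespace Pool.Agent.H70.WE

variable {α : Type}

/-- at most three non periodic witnesses -/
theorem np_bound (m k a b : ℕ) (E : Fin 4 → List (Fin 3) × List (Fin 3)) (h : Fin 4 → Fin 3 → List α)
    (hn : ∀ i, ¬ Per (h i)) (hc : ∀ i, val (h i) (pw m k ++ qw a b) = val (h i) (qw a b ++ pw m k))
    (hs : ∀ i j, j < i → Solves (h i) (E j)) (hne : ∀ i, ¬ Solves (h i) (E i)) : False := by
  have ht : ∀ i, ∃ t : ℕ × ℕ, Adm m k a b t.1 t.2 ∧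
      ∀ F : List (Fin 3) × List (Fin 3), Solves (h i) F ↔ EqAt m k a b t.1 t.2 F := by
    intro i
    obtain ⟨j, i', h1, h2⟩ := typ m k a b (h i) (hn i) (hc i)
    exact ⟨(j, i'), h1, h2⟩
  choose t hA hT using ht
  have hdist : ∀ i j, i < j → ¬ ((t i).1 = (t j).1 ∧ (t i).2 = (t j).2) := by
    rintro i j hij ⟨e1, e2⟩
    have h1 : EqAt m k a b (t j).1 (t j).2 (E i) := (hT j (E i)).1 (hs j i hij)
    rw [← e1, ← e2] at h1
    exact hne i ((hT i (E i)).2 h1)
  have h1 := (hT 1 (E 0)).1 (hs 1 0 (by decide))
  have h2 := (hT 2 (E 0)).1 (hs 2 0 (by decide))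
  have h3 := (hT 3 (E 0)).1 (hs 3 0 (by decide))
  exact hne 0 ((hT 0 (E 0)).2 (three_types (hA 1) (hA 2) (hA 3) h1 h2 h3 (hdist 1 2 (by decide))
    (hdist 1 3 (by decide)) (hdist 2 3 (by decide)) _ _))

theorem card_le {n : ℕ} (S : Finset (Fin n)) (hS : ∀ e : Fin 4 → Fin n, StrictMono e → (∀ i, e i ∈ S) → False) :
    S.card ≤ 3 := by
  by_contra hcon
  have h4 : 4 ≤ S.card := by omega
  obtain ⟨T, hTS, hT⟩ := Finset.exists_subset_card_eq h4
  exact hS (T.orderEmbOfFin hT) (T.orderEmbOfFin hT).strictMono
    (fun i => hTS (Finset.orderEmbOfFin_mem T hT i))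

theorem main_bound {n r m k a b : ℕ} {E : Fin n → List (Fin 3) × List (Fin 3)}
    (hE : Decreasing α n E)
    (hr : ∀ h : Fin 3 → List α, (∀ i : Fin n, i.val < r → Solves h (E i)) →
      val h (pw m k ++ qw a b) = val h (qw a b ++ pw m k)) : n ≤ r + 6 := by
  classical
  choose h hs hne using hE
  let S1 : Finset (Fin n) := Finset.univ.filter (fun i => r ≤ i.val ∧ Per (h i))
  let S2 : Finset (Fin n) := Finset.univ.filter (fun i => r ≤ i.val ∧ ¬ Per (h i))
  let S0 : Finset (Fin n) := Finset.univ.filter (fun i => i.val < r)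
  have c1 : S1.card ≤ 3 := by
    apply card_le
    intro e he hm
    have := per_bound (fun i => E (e i)) (fun i => h (e i)) (fun i => (Finset.mem_filter.1 (hm i)).2.2)
      (fun i j hij => hs (e i) (e j) (he hij)) (fun i => hne (e i))
    omega
  have c2 : S2.card ≤ 3 := by
    apply card_le
    intro e he hm
    refine np_bound m k a b (fun i => E (e i)) (fun i => h (e i)) (fun i => (Finset.mem_filter.1 (hm i)).2.2)
      (fun i => ?_) (fun i j hij => hs (e i) (e j) (he hij)) (fun i => hne (e i))
    apply hr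
    intro j hj
    apply hs
    have h1 := (Finset.mem_filter.1 (hm i)).2.1
    exact Fin.lt_def.2 (lt_of_lt_of_le hj h1)
  have c0 : S0.card ≤ r := by
    have h1 : S0.card ≤ (Finset.range r).card := by
      apply Finset.card_le_card_of_injOn (fun i : Fin n => i.val)
      · intro i hi
        have := (Finset.mem_filter.1 hi).2
        simpa using this
      · intro i _ j _ hij
        exact Fin.ext hij
    simpa using h1
  have hU : (Finset.univ : Finset (Fin n)) ⊆ S0 ∪ (S1 ∪ S2) := by
    intro i _
    by_cases hi : i.val < r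
    · exact Finset.mem_union_left _ (Finset.mem_filter.2 ⟨Finset.mem_univ _, hi⟩)
    · have hi' : r ≤ i.val := not_lt.1 hi
      apply Finset.mem_union_right
      by_cases hp : Per (h i)
      · exact Finset.mem_union_left _ (Finset.mem_filter.2 ⟨Finset.mem_univ _, hi', hp⟩)
      · exact Finset.mem_union_right _ (Finset.mem_filter.2 ⟨Finset.mem_univ _, hi', hp⟩)
  have h1 := Finset.card_le_card hU
  have h2 := Finset.card_union_le S0 (S1 ∪ S2)
  have h3 := Finset.card_union_le S1 S2
  rw [Finset.card_univ, Fintype.card_fin] at h1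
  omega

/-- the word in `x, y, z` obtained from a word in two letters by the substitution of the two words -/
def sub (m k a b : ℕ) (U : List Bool) : List (Fin 3) := U.flatMap (fun c => if c then pw m k else qw a b)

theorem val_sub (m k a b : ℕ) (h : Fin 3 → List α) (U : List Bool) :
    val h (sub m k a b U) = U.flatMap (fun c => if c then val h (pw m k) else val h (qw a b)) := by
  induction U with
  | nil => rfl
  | cons c U ih =>
    have h1 : sub m k a b (c :: U) = (if c then pw m k else qw a b) ++ sub m k a b U := by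
      unfold sub
      rw [List.flatMap_cons]
    rw [h1, val_append, ih, List.flatMap_cons]
    cases c <;> rfl

theorem first_bound {n m k a b : ℕ} {E : Fin (n + 1) → List (Fin 3) × List (Fin 3)}
    (hE : Decreasing α (n + 1) E) {U V : List Bool} (hUV : U ≠ V)
    (h0 : E 0 = (sub m k a b U, sub m k a b V)) : n + 1 ≤ 7 := by
  have := main_bound (r := 1) (m := m) (k := k) (a := a) (b := b) hE (fun h hh => by
    have h1 := hh 0 (by simp)
    rw [h0] at h1
    unfold Solves at h1
    change val h (sub m k a b U) = val h (sub m k a b V) at h1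
    rw [val_sub, val_sub] at h1
    rw [val_append, val_append]
    exact rel_comm _ _ U V hUV h1)
  omega

end Pool.Agent.H70.WE
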