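import Pool.Agent.H70.WE.Defs

/-!
# [H70 WE Nf] Uniqueness of the normal form in the free group of rank two

`G2 = Monoid.CoprodI (fun _ : Fin 2 => Multiplicative ℤ)`. Proof: to `L, f` belongs the reduced word
`tw L f : List (Σ i : Fin 2, Multiplicative ℤ)`, `tw [] f = if f = 0 then [] else [⟨1, ofAdd f⟩]`,
`tw ((e, s) :: L) f = (if e = 0 then [] else [⟨1, ofAdd e⟩]) ++ ⟨0, ofAdd s⟩ :: tw L f`. For `Good L` it is a
`Monoid.CoprodI.Word` (no syllable is `1`, neighbouring indices differ) with `Word.prod = ev2 L f`, and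
`Word.prod` is injective (`Monoid.CoprodI.Word.equiv`). Equality of the lists gives `L = L'`, `f = f'`
by induction.
-/

set_option autoImplicit false

namespace Pool.Agent.H70.WE

/-- syllables -/
private abbrev Syl : Type := Σ _ : Fin 2, Multiplicative ℤ

private def sB (e : ℤ) : Syl := ⟨1, Multiplicative.ofAdd e⟩

private def sA (s : ℕ) : Syl := ⟨0, Multiplicative.ofAdd (s : ℤ)⟩

/-- the syllable of `B ^ e`, nothing for `e = 0` -/
private def bl (e : ℤ) : List Syl := if e = 0 then [] else [sB e]

private def tw : List (ℤ × ℕ) → ℤ → List Syl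
  | [], f => bl f
  | (e, s) :: L, f => bl e ++ sA s :: tw L f

private def Inner (L : List (ℤ × ℕ)) : Prop := ∀ p ∈ L, 0 < p.2 ∧ p.1 ≠ 0

private theorem sB_inj {e e' : ℤ} (h : sB e = sB e') : e = e' := by
  unfold sB at h
  simpa using h

private theorem sA_inj {s s' : ℕ} (h : sA s = sA s') : s = s' := by
  unfold sA at h
  simpa using h

private theorem sA_ne_sB (s : ℕ) (e : ℤ) : sA s ≠ sB e := by
  intro h
  have := congrArg Sigma.fst h
  simp [sA, sB] at this

private theorem good_tail {e : ℤ} {s : ℕ} {L : List (ℤ × ℕ)} (h : Good ((e, s) :: L)) :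
    0 < s ∧ Inner L :=
  ⟨h.1 _ List.mem_cons_self, fun p hp => ⟨h.1 p (List.mem_cons_of_mem _ hp), h.2 p hp⟩⟩

private theorem inner_tail {p : ℤ × ℕ} {L : List (ℤ × ℕ)} (h : Inner (p :: L)) :
    0 < p.2 ∧ p.1 ≠ 0 ∧ Inner L :=
  ⟨(h p List.mem_cons_self).1, (h p List.mem_cons_self).2,
    fun q hq => h q (List.mem_cons_of_mem _ hq)⟩

private theorem chain_inner {L : List (ℤ × ℕ)} (hL : Inner L) (f : ℤ) (s : ℕ) :
    (sA s :: tw L f).IsChain (fun l l' => Sigma.fst l ≠ Sigma.fst l') := by
  induction L generalizing s with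
  | nil =>
    unfold tw bl
    split_ifs
    · exact List.isChain_singleton _
    · simp [sA, sB]
  | cons p L ih =>
    obtain ⟨e, t⟩ := p
    obtain ⟨h1, h2, h3⟩ := inner_tail hL
    have h2' : e ≠ 0 := h2
    unfold tw bl
    rw [if_neg h2']
    have := ih h3 t
    simp only [List.singleton_append, List.isChain_cons_cons]
    refine ⟨by simp [sA, sB], by simp [sA, sB], this⟩

private theorem chain_good {L : List (ℤ × ℕ)} (hL : Good L) (f : ℤ) :
    (tw L f).IsChain (fun l l' => Sigma.fst l ≠ Sigma.fst l') := by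
  cases L with
  | nil =>
    unfold tw bl
    split_ifs
    · exact List.isChain_nil
    · exact List.isChain_singleton _
  | cons p L =>
    obtain ⟨e, t⟩ := p
    obtain ⟨h1, h2⟩ := good_tail hL
    have := chain_inner h2 f t
    unfold tw bl
    split_ifs
    · simpa using this
    · simp only [List.singleton_append, List.isChain_cons_cons]
      exact ⟨by simp [sA, sB], this⟩

private theorem bl_ne_one {e : ℤ} : ∀ l ∈ bl e, Sigma.snd l ≠ 1 := by
  intro l hl
  unfold bl at hl
  split_ifs at hl with h
  · simp at hl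
  · have : l = sB e := by simpa using hl
    subst this
    intro h'
    apply h
    have : Multiplicative.ofAdd e = 1 := h'
    exact Multiplicative.ofAdd.injective (this.trans ofAdd_zero.symm)

private theorem tw_ne_one {L : List (ℤ × ℕ)} (hL : ∀ p ∈ L, 0 < p.2) (f : ℤ) :
    ∀ l ∈ tw L f, Sigma.snd l ≠ 1 := by
  induction L with
  | nil => exact bl_ne_one
  | cons p L ih =>
    obtain ⟨e, t⟩ := p
    have ht : 0 < t := hL _ List.mem_cons_self
    have ih' := ih (fun q hq => hL q (List.mem_cons_of_mem _ hq))
    intro l hl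
    unfold tw at hl
    rw [List.mem_append, List.mem_cons] at hl
    rcases hl with hl | hl | hl
    · exact bl_ne_one l hl
    · subst hl
      intro h'
      have : Multiplicative.ofAdd (t : ℤ) = 1 := h'
      have h0 := Multiplicative.ofAdd.injective (this.trans ofAdd_zero.symm)
      omega
    · exact ih' l hl

private def wd (L : List (ℤ × ℕ)) (f : ℤ) (hL : Good L) :
    Monoid.CoprodI.Word (fun _ : Fin 2 => Multiplicative ℤ) where
  toList := tw L f
  ne_one := tw_ne_one hL.1 f
  chain_ne := chain_good hL f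

private def pr (l : List Syl) : G2 :=
  (l.map fun l => (Monoid.CoprodI.of (M := fun _ : Fin 2 => Multiplicative ℤ) (i := l.1) l.2)).prod

private theorem pr_append (l m : List Syl) : pr (l ++ m) = pr l * pr m := by
  unfold pr; rw [List.map_append, List.prod_append]

private theorem pr_cons (x : Syl) (m : List Syl) : pr (x :: m) =
    Monoid.CoprodI.of (M := fun _ : Fin 2 => Multiplicative ℤ) (i := x.1) x.2 * pr m := by
  unfold pr; rw [List.map_cons, List.prod_cons]

private theorem gB_zpow (e : ℤ) : gB ^ e =
    Monoid.CoprodI.of (M := fun _ : Fin 2 => Multiplicative ℤ) (i := (1 : Fin 2))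
      (Multiplicative.ofAdd e) := by
  unfold gB
  rw [← map_zpow, ← ofAdd_zsmul, smul_eq_mul, mul_one]

private theorem gA_pow (s : ℕ) : gA ^ s =
    Monoid.CoprodI.of (M := fun _ : Fin 2 => Multiplicative ℤ) (i := (0 : Fin 2))
      (Multiplicative.ofAdd (s : ℤ)) := by
  unfold gA
  rw [← map_pow, ← ofAdd_nsmul, nsmul_eq_mul, mul_one]

private theorem pr_bl (e : ℤ) : pr (bl e) = gB ^ e := by
  unfold bl
  split_ifs with h
  · subst h; simp [pr]
  · rw [gB_zpow]; simp [pr, sB]

private theorem pr_tw (L : List (ℤ × ℕ)) (f : ℤ) : pr (tw L f) = ev2 L f := by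
  induction L with
  | nil => exact pr_bl f
  | cons p L ih =>
    obtain ⟨e, t⟩ := p
    unfold tw ev2
    rw [pr_append, pr_cons, ih, pr_bl, gA_pow, mul_assoc]
    rfl

private theorem prod_inj {w w' : Monoid.CoprodI.Word (fun _ : Fin 2 => Multiplicative ℤ)}
    (h : w.prod = w'.prod) : w = w' :=
  Monoid.CoprodI.Word.equiv.symm.injective h

private theorem tw_inj_inner {L L' : List (ℤ × ℕ)} {f f' : ℤ} (hL : Inner L) (hL' : Inner L')
    (h : tw L f = tw L' f') : L = L' ∧ f = f' := by
  induction L generalizing L' with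
  | nil =>
    cases L' with
    | nil =>
      refine ⟨rfl, ?_⟩
      unfold tw bl at h
      split_ifs at h with h1 h2 h2
      · rw [h1, h2]
      · have := sB_inj (List.singleton_injective h)
        exact this
    | cons p L' =>
      exfalso
      obtain ⟨e, t⟩ := p
      obtain ⟨h1, h2, h3⟩ := inner_tail hL'
      have h2' : e ≠ 0 := h2
      have := congrArg List.length h
      unfold tw bl at this
      rw [if_neg h2'] at this
      split_ifs at this <;> simp at this
  | cons p L ih =>
    obtain ⟨e, t⟩ := p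
    obtain ⟨h1, h2, h3⟩ := inner_tail hL
    have h2' : e ≠ 0 := h2
    cases L' with
    | nil =>
      exfalso
      have := congrArg List.length h
      unfold tw bl at this
      rw [if_neg h2'] at this
      split_ifs at this <;> simp at this
    | cons p' L' =>
      obtain ⟨e', t'⟩ := p'
      obtain ⟨k1, k2, k3⟩ := inner_tail hL'
      have k2' : e' ≠ 0 := k2
      unfold tw bl at h
      rw [if_neg h2', if_neg k2', List.singleton_append, List.singleton_append,
        List.cons.injEq, List.cons.injEq] at h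
      obtain ⟨ha, hb, hc⟩ := h
      obtain ⟨r1, r2⟩ := ih h3 k3 hc
      refine ⟨?_, r2⟩
      rw [sB_inj ha, sA_inj hb, r1]

private theorem sA_notMem_bl (t : ℕ) (f : ℤ) : sA t ∉ bl f := by
  intro h
  unfold bl at h
  split_ifs at h
  · simp at h
  · exact sA_ne_sB _ _ (by simpa using h)

private theorem tw_inj {L L' : List (ℤ × ℕ)} {f f' : ℤ} (hL : Good L) (hL' : Good L')
    (h : tw L f = tw L' f') : L = L' ∧ f = f' := by
  cases L with
  | nil =>
    cases L' with
    | nil =>
      exact tw_inj_inner (fun p hp => absurd hp List.not_mem_nil)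
        (fun p hp => absurd hp List.not_mem_nil) h
    | cons p L' =>
      exfalso
      obtain ⟨e, t⟩ := p
      have : sA t ∈ tw [] f := by
        rw [h]; unfold tw; simp
      exact sA_notMem_bl t f this
  | cons p L =>
    obtain ⟨e, t⟩ := p
    obtain ⟨h1, h3⟩ := good_tail hL
    cases L' with
    | nil =>
      exfalso
      have : sA t ∈ tw [] f' := by
        rw [← h]; unfold tw; simp
      exact sA_notMem_bl t f' this
    | cons p' L' =>
      obtain ⟨e', t'⟩ := p'
      obtain ⟨k1, k3⟩ := good_tail hL'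
      unfold tw bl at h
      split_ifs at h with a b b
      · rw [List.nil_append, List.nil_append, List.cons.injEq] at h
        obtain ⟨hb, hc⟩ := h
        obtain ⟨r1, r2⟩ := tw_inj_inner h3 k3 hc
        exact ⟨by rw [a, b, sA_inj hb, r1], r2⟩
      · exfalso
        rw [List.nil_append, List.singleton_append, List.cons.injEq] at h
        exact sA_ne_sB _ _ h.1
      · exfalso
        rw [List.nil_append, List.singleton_append, List.cons.injEq] at h
        exact sA_ne_sB _ _ h.1.symm
      · rw [List.singleton_append, List.singleton_append, List.cons.injEq, List.cons.injEq] at h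
        obtain ⟨ha, hb, hc⟩ := h
        obtain ⟨r1, r2⟩ := tw_inj_inner h3 k3 hc
        exact ⟨by rw [sB_inj ha, sA_inj hb, r1], r2⟩

theorem ev2_inj {L L' : List (ℤ × ℕ)} {f f' : ℤ} (hL : Good L) (hL' : Good L')
    (h : ev2 L f = ev2 L' f') : L = L' ∧ f = f' := by
  have h1 : (wd L f hL).prod = (wd L' f' hL').prod := by
    change pr (tw L f) = pr (tw L' f')
    rw [pr_tw, pr_tw, h]
  have h2 := congrArg Monoid.CoprodI.Word.toList (prod_inj h1)
  exact tw_inj hL hL' h2

end Pool.Agent.H70.WE
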