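import Pool.Agent.H70.WE.Nf

/-!
# [H70 WE ZZ] If `x` and `z` are the two commuting words: both deletions equal

For `m = k = a = b = 0` the equation at `(1, 0)` says that `U` and `V` are equal after
deleting `z` (as elements of `G2`, so as words), at `(0, 1)` after deleting `x`; then `U` and `V` have the
same number of `x` and of `z` between any two consecutive `y`; also by normal forms `nf`, or by induction on
the blocks (number of `x`, number of `z`) between the letters `y`.
Suggestion: at `(1, 0)` the value of a word is the product over its letters of `gA` (letter `x`), `gB` (letter `y`), `1`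
(letter `z`). Write `U` as blocks `(s_0, t_0), ..., (s_n, t_n)` (numbers of `x` and `z` between the letters `y`): the value
at `(j, i)` is `gA^(s_0 j + t_0 i) gB gA^(s_1 j + t_1 i) gB ...`. The submonoid generated by `gA, gB` is free (the homomorphism
`FreeMonoid (Fin 2) → G2` is injective: from `ev2_inj`, or via `FreeGroup`), so the value at `(1, 0)` determines the list
of the `s_t` and the value at `(0, 1)` the list of the `t_t`.
-/

set_option autoImplicit false

namespace Pool.Agent.H70.WE

/-- `G2 → FreeGroup (Fin 2)` -/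
private def zf : G2 →* FreeGroup (Fin 2) :=
  Monoid.CoprodI.lift (fun i => zpowersHom (FreeGroup (Fin 2)) (FreeGroup.of i))

private theorem zf_gA : zf gA = FreeGroup.of 0 := by
  unfold zf gA
  rw [Monoid.CoprodI.lift_of]
  simp

private theorem zf_gB : zf gB = FreeGroup.of 1 := by
  unfold zf gB
  rw [Monoid.CoprodI.lift_of]
  simp

/-- positive words are reduced -/
private theorem reduce_pos (w : List (Fin 2)) :
    FreeGroup.reduce (w.map (fun c => (c, true))) = w.map (fun c => (c, true)) := by
  induction w with
  | nil => rfl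
  | cons c w ih =>
    rw [List.map_cons, FreeGroup.reduce.cons, ih]
    cases w with
    | nil => rfl
    | cons d w => simp

private theorem mk_inj {v w : List (Fin 2)}
    (h : FreeGroup.mk (v.map (fun c => (c, true))) = FreeGroup.mk (w.map (fun c => (c, true)))) :
    v = w := by
  have h1 := FreeGroup.reduce.sound h
  rw [reduce_pos, reduce_pos] at h1
  exact List.map_injective_iff.mpr (fun a b hab => (Prod.mk.inj hab).1) h1

/-- delete `z` -/
private def dz (U : List (Fin 3)) : List (Fin 2) := U.flatMap ![[0], [1], []]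

/-- delete `x`, call `z` now `0` -/
private def dx (U : List (Fin 3)) : List (Fin 2) := U.flatMap ![[], [1], [0]]

private theorem gev_cons (m k a b j i : ℕ) (c : Fin 3) (U : List (Fin 3)) :
    gev m k a b j i (c :: U) = ge m k a b j i c * gev m k a b j i U := by
  simp [gev]

private theorem ge_zero (j i : ℕ) : ge 0 0 0 0 j i = ![gA ^ j, gB, gA ^ i] := by
  unfold ge
  simp

private theorem zf_dz (U : List (Fin 3)) :
    zf (gev 0 0 0 0 1 0 U) = FreeGroup.mk ((dz U).map (fun c => (c, true))) := by
  induction U with
  | nil => simp [gev, dz, FreeGroup.one_eq_mk]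
  | cons c U ih =>
    rw [gev_cons, map_mul, ih, ge_zero]
    unfold dz
    rw [List.flatMap_cons, List.map_append, ← FreeGroup.mul_mk]
    congr 1
    fin_cases c
    · simp [zf_gA, FreeGroup.of]
    · simp [zf_gB, FreeGroup.of]
    · simp [FreeGroup.one_eq_mk]

private theorem zf_dx (U : List (Fin 3)) :
    zf (gev 0 0 0 0 0 1 U) = FreeGroup.mk ((dx U).map (fun c => (c, true))) := by
  induction U with
  | nil => simp [gev, dx, FreeGroup.one_eq_mk]
  | cons c U ih =>
    rw [gev_cons, map_mul, ih, ge_zero]
    unfold dx
    rw [List.flatMap_cons, List.map_append, ← FreeGroup.mul_mk]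
    congr 1
    fin_cases c
    · simp [FreeGroup.one_eq_mk]
    · simp [zf_gB, FreeGroup.of]
    · simp [zf_gA, FreeGroup.of]

/-- blocks: numbers of `x` and `z` before the first `y`, then after each `y` -/
private def blk : List (Fin 3) → (ℕ × ℕ) × List (ℕ × ℕ)
  | [] => ((0, 0), [])
  | c :: U => if c = 1 then ((0, 0), (blk U).1 :: (blk U).2)
      else if c = 0 then (((blk U).1.1 + 1, (blk U).1.2), (blk U).2)
      else (((blk U).1.1, (blk U).1.2 + 1), (blk U).2)

private def cnt : List (Fin 2) → ℕ × List ℕ
  | [] => (0, [])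
  | c :: w => if c = 1 then (0, (cnt w).1 :: (cnt w).2) else ((cnt w).1 + 1, (cnt w).2)

private theorem cnt_dz (U : List (Fin 3)) :
    cnt (dz U) = ((blk U).1.1, (blk U).2.map Prod.fst) := by
  induction U with
  | nil => simp [dz, cnt, blk]
  | cons c U ih =>
    have e : dz (c :: U) = (![[0], [1], []] : Fin 3 → List (Fin 2)) c ++ dz U := by
      simp [dz]
    rw [e]
    fin_cases c <;> simp [cnt, blk, ih]

private theorem cnt_dx (U : List (Fin 3)) :
    cnt (dx U) = ((blk U).1.2, (blk U).2.map Prod.snd) := by
  induction U with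
  | nil => simp [dx, cnt, blk]
  | cons c U ih =>
    have e : dx (c :: U) = (![[], [1], [0]] : Fin 3 → List (Fin 2)) c ++ dx U := by
      simp [dx]
    rw [e]
    fin_cases c <;> simp [cnt, blk, ih]

/-- value of the blocks -/
private def bv (j i : ℕ) (b : (ℕ × ℕ) × List (ℕ × ℕ)) : G2 :=
  gA ^ (b.1.1 * j + b.1.2 * i) * (b.2.map (fun p => gB * gA ^ (p.1 * j + p.2 * i))).prod

private theorem gev_bv (j i : ℕ) (U : List (Fin 3)) : gev 0 0 0 0 j i U = bv j i (blk U) := by
  induction U with
  | nil => simp [gev, bv, blk]
  | cons c U ih =>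
    rw [gev_cons, ih, ge_zero]
    fin_cases c
    · have e : blk (0 :: U) = (((blk U).1.1 + 1, (blk U).1.2), (blk U).2) := by
        rw [blk, if_neg (by decide), if_pos rfl]
      change gA ^ j * bv j i (blk U) = bv j i (blk (0 :: U))
      rw [e]
      unfold bv
      rw [← mul_assoc, ← pow_add]
      congr 2
      simp only
      ring
    · have e : blk (1 :: U) = ((0, 0), (blk U).1 :: (blk U).2) := by
        rw [blk, if_pos rfl]
      change gB * bv j i (blk U) = bv j i (blk (1 :: U))
      rw [e]
      unfold bv
      simp [mul_assoc]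
    · have e : blk (2 :: U) = (((blk U).1.1, (blk U).1.2 + 1), (blk U).2) := by
        rw [blk, if_neg (by decide), if_neg (by decide)]
      change gA ^ i * bv j i (blk U) = bv j i (blk (2 :: U))
      rw [e]
      unfold bv
      rw [← mul_assoc, ← pow_add]
      congr 2
      simp only
      ring

private theorem pair_ext (l l' : List (ℕ × ℕ)) (h1 : l.map Prod.fst = l'.map Prod.fst)
    (h2 : l.map Prod.snd = l'.map Prod.snd) : l = l' := by
  induction l generalizing l' with
  | nil =>
    cases l' with
    | nil => rfl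
    | cons p l' => simp at h1
  | cons p l ih =>
    cases l' with
    | nil => simp at h1
    | cons q l' =>
      rw [List.map_cons, List.map_cons, List.cons.injEq] at h1 h2
      rw [ih l' h1.2 h2.2, Prod.ext h1.1 h2.1]

theorem zero_zero (E : List (Fin 3) × List (Fin 3)) (h1 : EqAt 0 0 0 0 1 0 E)
    (h2 : EqAt 0 0 0 0 0 1 E) (j i : ℕ) : EqAt 0 0 0 0 j i E := by
  unfold EqAt at h1 h2 ⊢
  have a1 : dz E.1 = dz E.2 := mk_inj (by rw [← zf_dz, ← zf_dz, h1])
  have a2 : dx E.1 = dx E.2 := mk_inj (by rw [← zf_dx, ← zf_dx, h2])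
  have b1 := congrArg cnt a1
  have b2 := congrArg cnt a2
  rw [cnt_dz, cnt_dz, Prod.mk.injEq] at b1
  rw [cnt_dx, cnt_dx, Prod.mk.injEq] at b2
  have : blk E.1 = blk E.2 :=
    Prod.ext (Prod.ext b1.1 b2.1) (pair_ext _ _ b1.2 b2.2)
  rw [gev_bv, gev_bv, this]

end Pool.Agent.H70.WE
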