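import Pool.Agent.H70.WE.Pos
import Pool.Agent.H70.WE.ZZ

/-!
# [H70 WE Np] Three types force all types
-/

set_option autoImplicit false

namespace Pool.Agent.H70.WE

/-- the admissible types -/
def Adm (m k a b j i : ℕ) : Prop :=
  Nat.Coprime j i ∧ (i = 0 → a = 0 ∧ b = 0) ∧ (j = 0 → m = 0 ∧ k = 0)

private theorem cross {j i j' i' : ℕ} (h : Nat.Coprime j i) (h' : Nat.Coprime j' i')
    (he : j * i' = j' * i) : j = j' ∧ i = i' := by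
  have h1 : j ∣ j' := h.dvd_of_dvd_mul_right ⟨i', he.symm⟩
  have h2 : j' ∣ j := h'.dvd_of_dvd_mul_right ⟨i, he⟩
  have h3 : j = j' := Nat.dvd_antisymm h1 h2
  subst h3
  rcases Nat.eq_zero_or_pos j with hj | hj
  · subst hj
    rw [Nat.coprime_zero_left] at h h'
    exact ⟨rfl, by rw [h, h']⟩
  · exact ⟨rfl, (Nat.eq_of_mul_eq_mul_left hj he).symm⟩

private theorem two_pos {m k a b j1 i1 j2 i2 : ℕ} {E : List (Fin 3) × List (Fin 3)}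
    (h1 : Adm m k a b j1 i1) (h2 : Adm m k a b j2 i2)
    (e1 : EqAt m k a b j1 i1 E) (e2 : EqAt m k a b j2 i2 E) (n12 : ¬ (j1 = j2 ∧ i1 = i2))
    (p1 : 0 < j1 ∧ 0 < i1) (p2 : 0 < j2 ∧ 0 < i2) (j i : ℕ) : EqAt m k a b j i E :=
  pos_pos p1.1 p1.2 p2.1 p2.2 (fun he => n12 (cross h1.1 h2.1 he)) E e1 e2 j i

private theorem nonpos {m k a b j i : ℕ} (h : Adm m k a b j i) (hp : ¬ (0 < j ∧ 0 < i)) :
    (j = 1 ∧ i = 0 ∧ a = 0 ∧ b = 0) ∨ (j = 0 ∧ i = 1 ∧ m = 0 ∧ k = 0) := by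
  rcases Nat.eq_zero_or_pos j with hj | hj
  · right
    have h1 := h.1
    rw [hj, Nat.coprime_zero_left] at h1
    exact ⟨hj, h1, h.2.2 hj⟩
  · left
    have hi : i = 0 := by
      by_contra hi
      exact hp ⟨hj, Nat.pos_of_ne_zero hi⟩
    have h1 := h.1
    rw [hi, Nat.coprime_zero_right] at h1
    exact ⟨h1, hi, h.2.1 hi⟩

private theorem two_nonpos {m k a b j1 i1 j2 i2 : ℕ} {E : List (Fin 3) × List (Fin 3)}
    (h1 : Adm m k a b j1 i1) (h2 : Adm m k a b j2 i2)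
    (e1 : EqAt m k a b j1 i1 E) (e2 : EqAt m k a b j2 i2 E) (n12 : ¬ (j1 = j2 ∧ i1 = i2))
    (p1 : ¬ (0 < j1 ∧ 0 < i1)) (p2 : ¬ (0 < j2 ∧ 0 < i2)) (j i : ℕ) : EqAt m k a b j i E := by
  rcases nonpos h1 p1 with ⟨a1, a2, a3, a4⟩ | ⟨a1, a2, a3, a4⟩
  · rcases nonpos h2 p2 with ⟨b1, b2, b3, b4⟩ | ⟨b1, b2, b3, b4⟩
    · exact absurd ⟨by rw [a1, b1], by rw [a2, b2]⟩ n12
    · subst a1 a2 a3 a4 b1 b2 b3 b4
      exact zero_zero E e1 e2 j i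
  · rcases nonpos h2 p2 with ⟨b1, b2, b3, b4⟩ | ⟨b1, b2, b3, b4⟩
    · subst a1 a2 a3 a4 b1 b2 b3 b4
      exact zero_zero E e2 e1 j i
    · exact absurd ⟨by rw [a1, b1], by rw [a2, b2]⟩ n12

theorem three_types {m k a b j1 i1 j2 i2 j3 i3 : ℕ} {E : List (Fin 3) × List (Fin 3)}
    (h1 : Adm m k a b j1 i1) (h2 : Adm m k a b j2 i2) (h3 : Adm m k a b j3 i3)
    (e1 : EqAt m k a b j1 i1 E) (e2 : EqAt m k a b j2 i2 E) (e3 : EqAt m k a b j3 i3 E)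
    (n12 : ¬ (j1 = j2 ∧ i1 = i2)) (n13 : ¬ (j1 = j3 ∧ i1 = i3)) (n23 : ¬ (j2 = j3 ∧ i2 = i3))
    (j i : ℕ) : EqAt m k a b j i E := by
  by_cases p1 : 0 < j1 ∧ 0 < i1
  · by_cases p2 : 0 < j2 ∧ 0 < i2
    · exact two_pos h1 h2 e1 e2 n12 p1 p2 j i
    · by_cases p3 : 0 < j3 ∧ 0 < i3
      · exact two_pos h1 h3 e1 e3 n13 p1 p3 j i
      · exact two_nonpos h2 h3 e2 e3 n23 p2 p3 j i
  · by_cases p2 : 0 < j2 ∧ 0 < i2
    · by_cases p3 : 0 < j3 ∧ 0 < i3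
      · exact two_pos h2 h3 e2 e3 n23 p2 p3 j i
      · exact two_nonpos h1 h3 e1 e3 n13 p1 p3 j i
    · exact two_nonpos h1 h2 e1 e2 n12 p1 p2 j i

end Pool.Agent.H70.WE
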