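import Pool.Agent.H70.WE.Nf

/-!
# [H70 WE Pos] An equation which holds at two positive types holds at all types

Proof. Symbolic normal forms `S : List (ℤ × (ℕ × ℕ)) × ℤ` (the syllable `(e, (s, t))` stands for
`B^e A^(s j + t i)`), built from the right: left multiplication by `B^c` adds `c` to the first exponent
of `B` (or to the last one if the list is empty), left multiplication by the syllable `(s, t)` puts
`(0, (s, t))` in front, or adds `(s, t)` to the first syllable if its exponent of `B` is `0`. For every
`j, i`: value of the new form = factor times the old value. The word `U` gives the form `nf U`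
(letter `x`: `B^(-k)`, then `(1, 0)`, then `B^(-m)`; `y`: `B^1`; `z`: `B^(-b)`, `(0, 1)`, `B^(-a)`), with
`gev m k a b j i U` = value at `(j, i)`; all `(s, t) ≠ (0, 0)` and all exponents of `B` except the first and
the last are nonzero, so for `j, i > 0` the list `(e, s j + t i)` is `Good` and `ev2_inj` applies. Two types
with `j * i' ≠ j' * i` determine `s, t`, so `nf U = nf V`.
-/

set_option autoImplicit false

namespace Pool.Agent.H70.WE

/-- symbolic syllables -/
private abbrev SList : Type := List (ℤ × (ℕ × ℕ))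

/-- the syllable at the type `(j, i)` -/
private def phi (j i : ℕ) (p : ℤ × (ℕ × ℕ)) : ℤ × ℕ := (p.1, p.2.1 * j + p.2.2 * i)

/-- value of a symbolic form at the type `(j, i)` -/
private def vs (j i : ℕ) (S : SList × ℤ) : G2 := ev2 (S.1.map (phi j i)) S.2

/-- left multiplication by `B^c` -/
private def addB (c : ℤ) : SList × ℤ → SList × ℤ
  | ([], f) => ([], c + f)
  | (p :: S, f) => ((c + p.1, p.2) :: S, f)

/-- left multiplication by the syllable `(s, t)` -/
private def addA (s t : ℕ) : SList × ℤ → SList × ℤ
  | ([], f) => ([(0, (s, t))], f)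
  | (p :: S, f) => if p.1 = 0 then ((0, (s + p.2.1, t + p.2.2)) :: S, f)
      else ((0, (s, t)) :: p :: S, f)

/-- symbolic goodness -/
private def SGood (S : SList) : Prop := (∀ p ∈ S, 0 < p.2.1 + p.2.2) ∧ ∀ p ∈ S.tail, p.1 ≠ 0

private theorem vs_addB (j i : ℕ) (c : ℤ) (S : SList × ℤ) :
    vs j i (addB c S) = gB ^ c * vs j i S := by
  obtain ⟨S, f⟩ := S
  cases S with
  | nil => simp [vs, addB, ev2, zpow_add]
  | cons p S => simp [vs, addB, ev2, phi, zpow_add, mul_assoc]

private theorem vs_addA (j i s t : ℕ) (S : SList × ℤ) :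
    vs j i (addA s t S) = gA ^ (s * j + t * i) * vs j i S := by
  obtain ⟨S, f⟩ := S
  cases S with
  | nil => simp [vs, addA, ev2, phi]
  | cons p S =>
    by_cases h : p.1 = 0
    · have e1 : (s + p.2.1) * j + (t + p.2.2) * i = (s * j + t * i) + (p.2.1 * j + p.2.2 * i) := by
        ring
      simp [vs, addA, ev2, phi, h, e1, pow_add, mul_assoc]
    · simp [vs, addA, ev2, phi, h, mul_assoc]

private theorem good_addB (c : ℤ) (S : SList × ℤ) (h : SGood S.1) : SGood (addB c S).1 := by
  obtain ⟨S, f⟩ := S
  cases S with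
  | nil => exact h
  | cons p S =>
    refine ⟨fun q hq => ?_, h.2⟩
    simp only [addB, List.mem_cons] at hq
    rcases hq with rfl | hq
    · exact h.1 p (by simp)
    · exact h.1 q (by simp [hq])

private theorem good_addA (s t : ℕ) (hst : 0 < s + t) (S : SList × ℤ) (h : SGood S.1) :
    SGood (addA s t S).1 := by
  obtain ⟨S, f⟩ := S
  cases S with
  | nil =>
    refine ⟨fun q hq => ?_, fun q hq => ?_⟩
    · simp only [addA, List.mem_cons, List.not_mem_nil, or_false] at hq
      subst hq
      exact hst
    · simp [addA] at hq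
  | cons p S =>
    have hp : 0 < p.2.1 + p.2.2 := h.1 p (by simp)
    by_cases h0 : p.1 = 0
    · refine ⟨fun q hq => ?_, fun q hq => ?_⟩
      · simp only [addA, h0, if_true, List.mem_cons] at hq
        rcases hq with rfl | hq
        · show 0 < (s + p.2.1) + (t + p.2.2)
          omega
        · exact h.1 q (by simp [hq])
      · simp only [addA, h0, if_true, List.tail_cons] at hq
        exact h.2 q (by simpa using hq)
    · refine ⟨fun q hq => ?_, fun q hq => ?_⟩
      · simp only [addA, h0, if_false, List.mem_cons] at hq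
        rcases hq with rfl | rfl | hq
        · exact hst
        · exact hp
        · exact h.1 q (by simp [hq])
      · simp only [addA, h0, if_false, List.tail_cons, List.mem_cons] at hq
        rcases hq with rfl | hq
        · exact h0
        · exact h.2 q (by simpa using hq)

/-- one letter -/
private def step (m k a b : ℕ) (c : Fin 3) (S : SList × ℤ) : SList × ℤ :=
  if c = 0 then addB (-(m : ℤ)) (addA 1 0 (addB (-(k : ℤ)) S))
  else if c = 1 then addB 1 S
  else addB (-(a : ℤ)) (addA 0 1 (addB (-(b : ℤ)) S))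

/-- the symbolic form of a word -/
private def nf (m k a b : ℕ) (U : List (Fin 3)) : SList × ℤ :=
  U.foldr (step m k a b) ([], 0)

private theorem vs_step (m k a b j i : ℕ) (c : Fin 3) (S : SList × ℤ) :
    vs j i (step m k a b c S) = ge m k a b j i c * vs j i S := by
  fin_cases c
  · simp [step, vs_addB, vs_addA, ge, mul_assoc]
  · simp [step, vs_addB, ge]
  · simp [step, vs_addB, vs_addA, ge, mul_assoc]

private theorem vs_nf (m k a b j i : ℕ) (U : List (Fin 3)) :
    vs j i (nf m k a b U) = gev m k a b j i U := by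
  induction U with
  | nil => simp [nf, vs, ev2, gev]
  | cons c U ih =>
    have e1 : nf m k a b (c :: U) = step m k a b c (nf m k a b U) := rfl
    rw [e1, vs_step, ih]
    simp [gev]

private theorem good_nf (m k a b : ℕ) (U : List (Fin 3)) : SGood (nf m k a b U).1 := by
  induction U with
  | nil =>
    refine ⟨fun q hq => ?_, fun q hq => ?_⟩
    · simp [nf] at hq
    · simp [nf] at hq
  | cons c U ih =>
    have e1 : nf m k a b (c :: U) = step m k a b c (nf m k a b U) := rfl
    rw [e1]
    unfold step
    split_ifs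
    · exact good_addB _ _ (good_addA _ _ (by norm_num) _ (good_addB _ _ ih))
    · exact good_addB _ _ ih
    · exact good_addB _ _ (good_addA _ _ (by norm_num) _ (good_addB _ _ ih))

private theorem good_map {j i : ℕ} (hj : 0 < j) (hi : 0 < i) {S : SList} (h : SGood S) :
    Good (S.map (phi j i)) := by
  refine ⟨fun q hq => ?_, fun q hq => ?_⟩
  · obtain ⟨p, hp, rfl⟩ := List.mem_map.1 hq
    have h1 := h.1 p hp
    show 0 < p.2.1 * j + p.2.2 * i
    rcases Nat.eq_zero_or_pos p.2.1 with h2 | h2
    · have h3 : 0 < p.2.2 := by omega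
      have := Nat.mul_pos h3 hi
      omega
    · have := Nat.mul_pos h2 hj
      omega
  · rw [← List.map_tail] at hq
    obtain ⟨p, hp, rfl⟩ := List.mem_map.1 hq
    exact h.2 p hp

private theorem phi_inj {j i j' i' : ℕ} (hne : j * i' ≠ j' * i) {p q : ℤ × (ℕ × ℕ)}
    (h1 : phi j i p = phi j i q) (h2 : phi j' i' p = phi j' i' q) : p = q := by
  obtain ⟨e, s, t⟩ := p
  obtain ⟨e', s', t'⟩ := q
  simp only [phi, Prod.mk.injEq] at h1 h2
  obtain ⟨he, h1⟩ := h1
  obtain ⟨-, h2⟩ := h2
  have g1 : (s : ℤ) * j + t * i = s' * j + t' * i := by exact_mod_cast h1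
  have g2 : (s : ℤ) * j' + t * i' = s' * j' + t' * i' := by exact_mod_cast h2
  have hd : (j : ℤ) * i' - j' * i ≠ 0 := by
    intro h
    apply hne
    have : (j : ℤ) * i' = j' * i := by linarith
    exact_mod_cast this
  have hs : ((s : ℤ) - s') * ((j : ℤ) * i' - j' * i) = 0 := by
    linear_combination (i' : ℤ) * g1 - (i : ℤ) * g2
  have ht : ((t : ℤ) - t') * ((j : ℤ) * i' - j' * i) = 0 := by
    linear_combination (j : ℤ) * g2 - (j' : ℤ) * g1
  have hs' : (s : ℤ) = s' := by
    rcases mul_eq_zero.1 hs with h | h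
    · linarith
    · exact absurd h hd
  have ht' : (t : ℤ) = t' := by
    rcases mul_eq_zero.1 ht with h | h
    · linarith
    · exact absurd h hd
  have hs'' : s = s' := by exact_mod_cast hs'
  have ht'' : t = t' := by exact_mod_cast ht'
  rw [he, hs'', ht'']

private theorem map_inj2 {j i j' i' : ℕ} (hne : j * i' ≠ j' * i) :
    ∀ {S T : SList}, S.map (phi j i) = T.map (phi j i) → S.map (phi j' i') = T.map (phi j' i') →
      S = T
  | [], [], _, _ => rfl
  | [], _ :: _, h, _ => by simp at h
  | _ :: _, [], h, _ => by simp at h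
  | p :: S, q :: T, h1, h2 => by
    simp only [List.map_cons, List.cons.injEq] at h1 h2
    rw [phi_inj hne h1.1 h2.1, map_inj2 hne h1.2 h2.2]

theorem pos_pos {m k a b j i j' i' : ℕ} (hj : 0 < j) (hi : 0 < i) (hj' : 0 < j') (hi' : 0 < i')
    (hne : j * i' ≠ j' * i) (E : List (Fin 3) × List (Fin 3)) (h1 : EqAt m k a b j i E)
    (h2 : EqAt m k a b j' i' E) (j'' i'' : ℕ) : EqAt m k a b j'' i'' E := by
  have e1 : vs j i (nf m k a b E.1) = vs j i (nf m k a b E.2) := by
    rw [vs_nf, vs_nf]
    exact h1
  have e2 : vs j' i' (nf m k a b E.1) = vs j' i' (nf m k a b E.2) := by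
    rw [vs_nf, vs_nf]
    exact h2
  have k1 := ev2_inj (good_map hj hi (good_nf m k a b E.1)) (good_map hj hi (good_nf m k a b E.2)) e1
  have k2 := ev2_inj (good_map hj' hi' (good_nf m k a b E.1))
    (good_map hj' hi' (good_nf m k a b E.2)) e2
  have k3 : nf m k a b E.1 = nf m k a b E.2 :=
    Prod.ext (map_inj2 hne k1.1 k2.1) k1.2
  have k4 : vs j'' i'' (nf m k a b E.1) = vs j'' i'' (nf m k a b E.2) := by rw [k3]
  rw [vs_nf, vs_nf] at k4
  exact k4

end Pool.Agent.H70.WE
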