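import Pool.Agent.H70.WE.Defs

/-!
# [H70 WE Sharp] A chain of seven equations which starts with `xyz = zxy`
-/

set_option autoImplicit false

namespace Pool.Agent.H70.WE

/-- the seven equations -/
def chain7 : Fin 7 → List (Fin 3) × List (Fin 3) :=
  ![([0, 1, 2], [2, 0, 1]), ([0, 1, 0, 2, 1, 2], [2, 0, 2, 1, 0, 1]), ([0, 2], [2, 0]), ([0, 1], [1, 0]),
    ([0], []), ([1], []), ([2], [])]

/-- the seven witnesses -/
def wit7 : Fin 7 → Fin 3 → List ℕ :=
  ![![[0], [], [1]], ![[0], [1], [0, 1, 0, 1]], ![[0], [1], [0, 1]], ![[0], [1], []],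
    ![[0], [0], [0]], ![[], [0], [0]], ![[], [], [0]]]

theorem sharp7 : chain7 0 = ([0, 1, 2], [2, 0, 1]) ∧ Decreasing ℕ 7 chain7 := by
  refine ⟨rfl, fun i => ⟨wit7 i, ?_⟩⟩
  unfold Solves val
  revert i
  decide

end Pool.Agent.H70.WE
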